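import Pool.Agent.MP_75529e_al.Prime

set_option autoImplicit false

universe u

namespace Pool.Agent.Results.MP_75529e_al.PrimeJordanNilpotentIdeal

/-- `R` (a not necessarily associative ring) is semiprime: it has no nonzero two-sided ideal `K`
(an additive subgroup absorbing products with elements of `R` on both sides) all of whose
products `a * b` with `a, b ∈ K` vanish, i.e. with `K ^ 2 = 0`. -/
def IsSemiprimeRing (R : Type u) [NonUnitalNonAssocRing R] : Prop :=
  ∀ K : AddSubgroup R, (∀ r : R, ∀ k ∈ K, r * k ∈ K ∧ k * r ∈ K) →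
    (∀ a ∈ K, ∀ b ∈ K, a * b = 0) → K = ⊥

/-- `R` (a not necessarily associative ring) is prime: the product of two nonzero two-sided
ideals is nonzero. -/
def IsPrimeRing (R : Type u) [NonUnitalNonAssocRing R] : Prop :=
  ∀ K L : AddSubgroup R, (∀ r : R, ∀ k ∈ K, r * k ∈ K ∧ k * r ∈ K) →
    (∀ r : R, ∀ k ∈ L, r * k ∈ L ∧ k * r ∈ L) →
    (∀ a ∈ K, ∀ b ∈ L, a * b = 0) → K = ⊥ ∨ L = ⊥

open Pool.Agent.MP_75529e_al

theorem prime_J0 (F : Type u) [Field F] : IsPrimeRing (J0 F) := by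
  intro K L hK hL h
  exact prime K L (fun r k hk => (hK r k hk).1) (fun r k hk => (hL r k hk).1) h

/-- The ideal `Z ⊕ Y`. -/
def II (F : Type u) [Field F] : NonUnitalSubring (J0 F) where
  carrier := {x | x.a = 0 ∧ x.v = 0}
  zero_mem' := ⟨rfl, rfl⟩
  add_mem' := by
    rintro x y ⟨hx1, hx2⟩ ⟨hy1, hy2⟩
    exact ⟨by rw [JJ.add_a, hx1, hy1, add_zero], by rw [JJ.add_v, hx2, hy2, add_zero]⟩
  neg_mem' := by
    rintro x ⟨hx1, hx2⟩
    exact ⟨by rw [JJ.neg_a, hx1, neg_zero], by rw [JJ.neg_v, hx2, neg_zero]⟩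
  mul_mem' := by
    rintro x y ⟨hx1, hx2⟩ ⟨hy1, hy2⟩
    exact ⟨by rw [JJ.mul_a, hx1, hx2]; simp, by rw [JJ.mul_v, hx1, hy1]; simp⟩

theorem II_mul (F : Type u) [Field F] (r a : J0 F) (ha : a ∈ II F) : r * a ∈ II F := by
  obtain ⟨h1, h2⟩ := ha
  exact ⟨by rw [JJ.mul_a, h1, h2]; simp, by rw [JJ.mul_v, h1, h2]; simp⟩

theorem mul_of_mem {F : Type u} [Field F] {a b : J0 F} (ha : a ∈ II F) (hb : b ∈ II F) :
    (a * b).y = 0 := by
  rw [JJ.mul_y, ha.1, ha.2, hb.1, hb.2]
  simp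

theorem mul_eq_zero_of {F : Type u} [Field F] {a b : J0 F} (ha : a ∈ II F) (hb : b ∈ II F)
    (hy : a.y = 0) : a * b = 0 := by
  ext1
  · exact (II_mul F a b hb).1
  · exact (II_mul F a b hb).2
  · rw [JJ.mul_z, ha.1, ha.2, hb.1, hb.2, hy]
    simp
  · exact mul_of_mem ha hb

theorem II_cube (F : Type u) [Field F] (a b c : J0 F) (ha : a ∈ II F) (hb : b ∈ II F)
    (hc : c ∈ II F) : (a * b) * c = 0 :=
  mul_eq_zero_of (II_mul F a b hb) hc (mul_of_mem ha hb)

theorem II_not_semiprime (F : Type u) [Field F] : ¬ IsSemiprimeRing (II F) := by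
  intro h
  -- the ideal `Z` of `I`
  let K : AddSubgroup (II F) :=
    { carrier := {x | x.1.y = 0}
      zero_mem' := rfl
      add_mem' := by
        intro x y hx hy
        show x.1.y + y.1.y = 0
        rw [show x.1.y = 0 from hx, show y.1.y = 0 from hy, add_zero]
      neg_mem' := by
        intro x hx
        show -x.1.y = 0
        rw [show x.1.y = 0 from hx, neg_zero] }
  have h1 : ∀ r : II F, ∀ k ∈ K, r * k ∈ K ∧ k * r ∈ K := fun r k _ =>
    ⟨mul_of_mem r.2 k.2, mul_of_mem k.2 r.2⟩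
  have h2 : ∀ a ∈ K, ∀ b ∈ K, a * b = 0 := by
    intro a ha b _
    apply Subtype.ext
    exact mul_eq_zero_of a.2 b.2 ha
  have h3 := h K h1 h2
  have h4 : (⟨oz (onez F), rfl, rfl⟩ : II F) ∈ K := rfl
  rw [h3, AddSubgroup.mem_bot] at h4
  have h5 : oz (onez F) = 0 := congrArg Subtype.val h4
  have h6 := congrArg (fun z : ZZ F => (z 0 : EE F)) (oz_inj h5)
  exact one_ne_zero (α := EE F) h6

/-- Over every field `F` there is a unital prime Jordan algebra `J` (in particular `J` is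
semiprime) with an ideal `I` such that `I ^ 3 = 0` and `I`, as a ring in its own right, is not
semiprime. -/
theorem result (F : Type u) [Field F] :
    ∃ (J : Type u) (_ : NonUnitalNonAssocCommRing J) (_ : Module F J) (_ : IsScalarTower F J J)
      (_ : SMulCommClass F J J),
      (∃ e : J, ∀ x : J, e * x = x) ∧
      (∀ x y : J, ((x * x) * y) * x = (x * x) * (y * x)) ∧
      IsPrimeRing J ∧ IsSemiprimeRing J ∧
      ∃ I : NonUnitalSubring J, (∀ r : J, ∀ a ∈ I, r * a ∈ I) ∧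
        (∀ a ∈ I, ∀ b ∈ I, ∀ c ∈ I, (a * b) * c = 0) ∧ ¬ IsSemiprimeRing I := by
  refine ⟨J0 F, inferInstance, inferInstance, inferInstance, inferInstance,
    ⟨JJ.mk 1 0 0 0, JJ.one_mul'⟩, JJ.jordan, prime_J0 F, ?_, II F, II_mul F, ?_,
    II_not_semiprime F⟩
  · intro K hK h
    rcases prime_J0 F K K hK hK h with h1 | h1 <;> exact h1
  · intro a ha b hb c hc
    exact II_cube F a b c ha hb hc

end Pool.Agent.Results.MP_75529e_al.PrimeJordanNilpotentIdeal
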